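import Mathlib
import Pool.Agent.Y388.CF.Basic

set_option autoImplicit false

/-!
# Collapsing independent sets of vertices of bounded degree with connected neighbourhoods
-/

namespace Pool.Agent.X67.CR

open Pool.Agent.TH855 Pool.Agent.Y388.CF Classical
open scoped ENNReal

/-- Collapsing: `X` is an independent subset of `G`, all the neighbours (in `G`) of vertices of `X`
are neighbours of the vertex `v` of `G \ X`, and the neighbourhood of every vertex `x` of `X` is
contained in a connected subset `R x` of `G \ X` with at most `K` elements that does not contain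
`v`. -/
theorem collapse {Z : Type} [Fintype Z] (P : SimpleGraph Z) (G X : Set Z) (v : Z) (K : ℕ)
    (hK : 1 ≤ K) (hvG : v ∈ G) (hvX : v ∉ X)
    (hX : ∀ a b, a ∈ X → b ∈ X → ¬ P.Adj a b)
    (hv : ∀ x ∈ X, ∀ y ∈ G, P.Adj x y → P.Adj v y) (R : Z → Set Z)
    (hR : ∀ x ∈ X, ∀ y ∈ G, P.Adj x y → y ∈ R x) (hRG : ∀ x ∈ X, R x ⊆ G)
    (hRX : ∀ x ∈ X, ∀ y ∈ R x, y ∉ X) (hvR : ∀ x ∈ X, v ∉ R x)
    (hdeg : ∀ x ∈ X, (R x).ncard ≤ K)
    (hconn : ∀ x ∈ X, (P.induce (R x)).Connected)
    (hG' : (P.induce {z | z ∈ G ∧ z ∉ X}).Connected)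
    (hcard : ∃ z ∈ G, z ∉ X ∧ z ≠ v) :
    c (P.induce G) ≤ K * c (P.induce {z | z ∈ G ∧ z ∉ X}) := by
  set G' : Set Z := {z | z ∈ G ∧ z ∉ X} with hG'def
  have hvG' : v ∈ G' := ⟨hvG, hvX⟩
  set π : G → G' := fun z => if h : (z : Z) ∈ X then ⟨v, hvG'⟩ else ⟨z, z.2, h⟩ with hπdef
  have hπX : ∀ z : G, (z : Z) ∈ X → π z = ⟨v, hvG'⟩ := fun z h => by simp only [hπdef, dif_pos h]
  have hπY : ∀ (z : G) (h : (z : Z) ∉ X), π z = ⟨z, z.2, h⟩ := fun z h => by
    simp only [hπdef, dif_neg h]
  have hnb : ∀ x y, x ∈ X → P.Adj x y → y ∉ X := fun x y hx hxy hy => hX x y hx hy hxy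
  have hnonempty : Nonempty G := ⟨⟨v, hvG⟩⟩
  -- an enumeration of the vertices
  obtain ⟨n, e, he⟩ : ∃ (n : ℕ) (e : ℕ → G), ∀ x, ∃ i < n, e i = x := by
    obtain ⟨n, ⟨e⟩⟩ := Finite.exists_equiv_fin G
    refine ⟨n, fun i => if h : i < n then e.symm ⟨i, h⟩ else hnonempty.some, fun x => ?_⟩
    refine ⟨(e x).1, (e x).2, ?_⟩
    show (if h : (e x).1 < n then e.symm ⟨(e x).1, h⟩ else hnonempty.some) = x
    rw [dif_pos (e x).2]
    simp
  set N : G → Set G := fun x => {y | (y : Z) ∈ R (x : Z)} with hN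
  set B : ℕ → Set G := fun i => if i = 0 then {z : G | (z : Z) ∉ X} else
    (if (e (i - 1) : Z) ∈ X ∧ ∀ l < i - 1, e l ≠ e (i - 1) then
      insert (e (i - 1)) (N (e (i - 1))) else ∅) with hB
  have hB0 : B 0 = {z : G | (z : Z) ∉ X} := by simp [hB]
  have hBS : ∀ i, ((e i : Z) ∈ X ∧ ∀ l < i, e l ≠ e i) → B (i + 1) = insert (e i) (N (e i)) := by
    intro i h
    simp only [hB]
    rw [if_neg (by omega), show i + 1 - 1 = i by omega, if_pos h]
  have hBS' : ∀ i, ¬ ((e i : Z) ∈ X ∧ ∀ l < i, e l ≠ e i) → B (i + 1) = ∅ := by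
    intro i h
    simp only [hB]
    rw [if_neg (by omega), show i + 1 - 1 = i by omega, if_neg h]
  have hfirst : ∀ x : G, (x : Z) ∈ X → ∃ i < n, e i = x ∧ ∀ l < i, e l ≠ e i := by
    intro x hx
    have hex : ∃ i, i < n ∧ e i = x := by
      obtain ⟨i, hi, h⟩ := he x; exact ⟨i, hi, h⟩
    refine ⟨Nat.find hex, (Nat.find_spec hex).1, (Nat.find_spec hex).2, ?_⟩
    intro l hl h
    refine Nat.find_min hex hl ⟨?_, ?_⟩
    · exact lt_trans hl (Nat.find_spec hex).1
    · rw [h, (Nat.find_spec hex).2]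
  have hnbN : ∀ (x : G), (x : Z) ∈ X → ∀ y ∈ N x, (y : Z) ∉ X := fun x hx y hy => hRX _ hx _ hy
  have htg : TreeGlued (P.induce G) (P.induce G') K := by
    refine ⟨π, n + 1, B, ?_, ?_, ?_, ?_, ?_⟩
    · intro a b hab
      have hab' : P.Adj (a : Z) (b : Z) := hab
      by_cases ha : (a : Z) ∈ X
      · rw [hπX a ha, hπY b (hnb _ _ ha hab')]
        exact hv a ha b b.2 hab'
      · by_cases hb : (b : Z) ∈ X
        · rw [hπX b hb, hπY a ha]
          exact (hv b hb a a.2 hab'.symm).symm
        · rw [hπY a ha, hπY b hb]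
          exact hab'
    · intro w
      by_cases hw : (w : Z) ∈ X
      · obtain ⟨i, hi, hiw, h⟩ := hfirst w hw
        refine ⟨i + 1, by omega, ?_⟩
        rw [hBS i ⟨by rw [hiw]; exact hw, h⟩, hiw]
        exact Set.mem_insert _ _
      · exact ⟨0, by omega, by rw [hB0]; exact hw⟩
    · have key : ∀ a b : G, (a : Z) ∈ X → P.Adj (a : Z) (b : Z) →
          ∃ i < n + 1, a ∈ B i ∧ b ∈ B i := by
        intro a b ha hab
        obtain ⟨i, hi, hia, h⟩ := hfirst a ha
        refine ⟨i + 1, by omega, ?_⟩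
        rw [hBS i ⟨by rw [hia]; exact ha, h⟩, hia]
        exact ⟨Set.mem_insert _ _, Set.mem_insert_of_mem _ (hR _ ha _ b.2 hab)⟩
      intro a b hab
      have hab' : P.Adj (a : Z) (b : Z) := hab
      by_cases ha : (a : Z) ∈ X
      · exact key a b ha hab'
      · by_cases hb : (b : Z) ∈ X
        · obtain ⟨i, hi, h1, h2⟩ := key b a hb hab'.symm
          exact ⟨i, hi, h2, h1⟩
        · exact ⟨0, by omega, by rw [hB0]; exact ⟨ha, hb⟩⟩
    · have key : ∀ a b : G, (a : Z) ∉ X → (b : Z) ∉ X → π a = π b → a = b := by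
        intro a b ha hb hab
        rw [hπY a ha, hπY b hb] at hab
        exact Subtype.ext (congrArg (fun z : G' => (z : Z)) hab)
      intro i hi
      rcases Nat.eq_zero_or_pos i with rfl | hi0
      · rw [hB0]
        intro a ha b hb hab
        exact key a b ha hb hab
      · obtain ⟨j, rfl⟩ : ∃ j, i = j + 1 := ⟨i - 1, by omega⟩
        by_cases h : (e j : Z) ∈ X ∧ ∀ l < j, e l ≠ e j
        · rw [hBS j h]
          have hn : ∀ b ∈ N (e j), (b : Z) ∉ X := fun b hb => hnbN _ h.1 b hb
          have hnv : ∀ b ∈ N (e j), (b : Z) ≠ v := by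
            intro b hb hbv
            have h1 : (b : Z) ∈ R (e j : Z) := hb
            rw [hbv] at h1
            exact hvR _ h.1 h1
          rintro a (ha | ha) b (hb | hb) hab
          · rw [ha, hb]
          · rw [ha, hπX _ h.1, hπY b (hn b hb)] at hab
            exact absurd (congrArg (fun z : G' => (z : Z)) hab).symm (hnv b hb)
          · rw [hb, hπX _ h.1, hπY a (hn a ha)] at hab
            exact absurd (congrArg (fun z : G' => (z : Z)) hab) (hnv a ha)
          · exact key a b (hn a ha) (hn b hb) hab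
        · rw [hBS' j h]
          exact Set.injOn_empty _
    · intro i hi
      rcases Nat.eq_zero_or_pos i with rfl | hi0
      · left; intro l hl; omega
      · right
        obtain ⟨j, rfl⟩ : ∃ j, i = j + 1 := ⟨i - 1, by omega⟩
        refine ⟨0, by omega, ?_, ?_⟩
        · intro l hl
          rcases Nat.eq_zero_or_pos l with rfl | hl0
          · exact Set.inter_subset_right
          · obtain ⟨l, rfl⟩ : ∃ l', l = l' + 1 := ⟨l - 1, by omega⟩
            by_cases h : (e j : Z) ∈ X ∧ ∀ l < j, e l ≠ e j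
            · by_cases h' : (e l : Z) ∈ X ∧ ∀ l' < l, e l' ≠ e l
              · rw [hBS j h, hBS l h', hB0]
                have hne : e l ≠ e j := h.2 l (by omega)
                rintro z ⟨h1 | h1, h2 | h2⟩
                · exact absurd (h2.symm.trans h1) hne
                · rw [h1] at h2
                  exact absurd h.1 (hnbN _ h'.1 _ h2)
                · rw [h2] at h1
                  exact absurd h'.1 (hnbN _ h.1 _ h1)
                · exact hnbN _ h.1 _ h1
              · rw [hBS' l h']; simp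
            · rw [hBS' j h]; simp
        · by_cases h : (e j : Z) ∈ X ∧ ∀ l < j, e l ≠ e j
          · right
            have hint : B (j + 1) ∩ B 0 = N (e j) := by
              rw [hBS j h, hB0]
              ext z
              constructor
              · rintro ⟨h1 | h1, h2⟩
                · rw [h1] at h2
                  exact absurd h.1 h2
                · exact h1
              · intro hz
                exact ⟨Set.mem_insert_of_mem _ hz, hnbN _ h.1 _ hz⟩
            rw [hint]
            refine ⟨?_, ?_⟩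
            · have h1 : (N (e j)).ncard = ((fun z : G => (z : Z)) '' N (e j)).ncard :=
                (Set.ncard_image_of_injective _ Subtype.val_injective).symm
              rw [h1]
              refine (Set.ncard_le_ncard ?_ (Set.toFinite _)).trans (hdeg _ h.1)
              rintro _ ⟨z, hz, rfl⟩
              exact hz
            · have h1 := hconn _ h.1
              have hmem : ∀ y : (R (e j : Z)),
                  (⟨(y : Z), hRG _ h.1 y.2, hRX _ h.1 _ y.2⟩ : G') ∈ π '' N (e j) := by
                rintro ⟨y, hy⟩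
                refine ⟨⟨y, hRG _ h.1 hy⟩, hy, ?_⟩
                rw [hπY ⟨y, hRG _ h.1 hy⟩ (hRX _ h.1 _ hy)]
              let f : P.induce (R (e j : Z)) →g (P.induce G').induce (π '' N (e j)) :=
                ⟨fun y => ⟨⟨(y : Z), hRG _ h.1 y.2, hRX _ h.1 _ y.2⟩, hmem y⟩,
                  fun {a b} hab => hab⟩
              refine h1.map f ?_
              rintro ⟨_, z, hz, rfl⟩
              refine ⟨⟨z, hz⟩, ?_⟩
              apply Subtype.ext
              exact (hπY z (hnbN _ h.1 _ hz)).symm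
          · left
            rw [hBS' j h]
            exact Set.empty_subset _
  obtain ⟨z, hz1, hz2, hz3⟩ := hcard
  refine treeGlued_bound _ _ K hG' ?_ hK htg
  rw [Fintype.one_lt_card_iff]
  exact ⟨⟨z, hz1, hz2⟩, ⟨v, hvG'⟩, fun h => hz3 (congrArg (fun z : G' => (z : Z)) h)⟩

end Pool.Agent.X67.CR
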