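import Mathlib
import Pool.Agent.X67.CR.Collapse

set_option autoImplicit false

/-!
# Reduction of `c(F)` to `c(H)` for homomorphisms `F → H`, `H` without cut vertices
-/

namespace Pool.Agent.X67.CR

open Pool.Agent.TH855 Pool.Agent.Y388.CF Classical
open scoped ENNReal

variable {W U : Type}

/-- `H` is connected and every vertex `u` of `H` has a connected set `R` of at least two and at
most `d` vertices which contains all neighbours of `u`, but not `u` itself -/
def Surrounded (H : SimpleGraph U) (d : ℕ) : Prop :=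
  H.Connected ∧ ∀ u, ∃ R : Set U, H.neighborSet u ⊆ R ∧ u ∉ R ∧ 2 ≤ R.ncard ∧ R.ncard ≤ d ∧
    (H.induce R).Connected

/-- in a connected graph on a set with another element every vertex has a neighbour -/
theorem exists_nb {A : Type} (Q : SimpleGraph A) (hQ : Q.Preconnected) {a b : A} (hab : a ≠ b) :
    ∃ z, Q.Adj a z := by
  obtain ⟨p⟩ := hQ a b
  cases p with
  | nil => exact absurd rfl hab
  | cons h q => exact ⟨_, h⟩

theorem Surrounded.nb {H : SimpleGraph U} {d : ℕ} (h : Surrounded H d) (u : U) :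
    (H.neighborSet u).Nonempty := by
  obtain ⟨R, -, huR, h2, -⟩ := h.2 u
  have hR : R.Nonempty := by
    rw [Set.nonempty_iff_ne_empty]
    rintro rfl
    rw [Set.ncard_empty] at h2
    omega
  obtain ⟨r, hr⟩ := hR
  exact exists_nb H h.1.preconnected (fun he => huR (by rw [he]; exact hr) : u ≠ r)

theorem Surrounded.degree [Fintype U] {H : SimpleGraph U} {d : ℕ} (h : Surrounded H d) (u : U) :
    (H.neighborSet u).ncard ≤ d := by
  obtain ⟨R, hR, -, -, hd, -⟩ := h.2 u
  exact (Set.ncard_le_ncard hR (Set.toFinite _)).trans hd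

/-- the graph `F` together with a copy of `H`, in which the vertex `a` of `F` is joined to the
neighbours of `π a` in the copy of `H` -/
def big (F : SimpleGraph W) (H : SimpleGraph U) (π : W → U) : SimpleGraph (W ⊕ U) where
  Adj z z' := match z, z' with
    | Sum.inl a, Sum.inl b => F.Adj a b
    | Sum.inl a, Sum.inr u => H.Adj (π a) u
    | Sum.inr u, Sum.inl a => H.Adj u (π a)
    | Sum.inr u, Sum.inr v => H.Adj u v
  symm := ⟨by
    rintro (a | u) (b | v) h
    · exact SimpleGraph.Adj.symm (G := F) h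
    · exact SimpleGraph.Adj.symm (G := H) h
    · exact SimpleGraph.Adj.symm (G := H) h
    · exact SimpleGraph.Adj.symm (G := H) h⟩
  loopless := ⟨by
    rintro (a | u) h
    · exact F.loopless.irrefl _ h
    · exact H.loopless.irrefl _ h⟩

/-- the vertices which remain after the classes in `S` have been collapsed -/
def rem (π : W → U) (S : Set U) : Set (W ⊕ U) := {z | ∀ a, z = Sum.inl a → π a ∉ S}

theorem inl_mem_rem {π : W → U} {S : Set U} {a : W} :
    (Sum.inl a : W ⊕ U) ∈ rem π S ↔ π a ∉ S := by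
  constructor
  · intro h; exact h a rfl
  · intro h b hb; rw [← Sum.inl.inj hb]; exact h

theorem inr_mem_rem {π : W → U} {S : Set U} {u : U} : (Sum.inr u : W ⊕ U) ∈ rem π S := by
  intro a h; exact absurd h (by simp)

/-- the copy of `H` is connected and every other vertex has a neighbour in it -/
theorem rem_connected (F : SimpleGraph W) (H : SimpleGraph U) (π : W → U) (hH : H.Connected)
    (hne : ∀ u, (H.neighborSet u).Nonempty) (S : Set U) :
    ((big F H π).induce (rem π S)).Connected := by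
  rw [SimpleGraph.connected_iff_exists_forall_reachable]
  obtain ⟨u0⟩ := hH.nonempty
  refine ⟨⟨Sum.inr u0, inr_mem_rem⟩, ?_⟩
  let f : H →g (big F H π).induce (rem π S) :=
    ⟨fun u => ⟨Sum.inr u, inr_mem_rem⟩, fun {a b} hab => hab⟩
  have h1 : ∀ u : U, ((big F H π).induce (rem π S)).Reachable ⟨Sum.inr u0, inr_mem_rem⟩
      ⟨Sum.inr u, inr_mem_rem⟩ := fun u => (hH.preconnected u0 u).map f
  rintro ⟨a | u, hz⟩
  · obtain ⟨u, hu⟩ := hne (π a)
    refine (h1 u).trans ?_
    have h2 : ((big F H π).induce (rem π S)).Adj ⟨Sum.inr u, inr_mem_rem⟩ ⟨Sum.inl a, hz⟩ := by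
      show H.Adj u (π a)
      exact SimpleGraph.Adj.symm (G := H) hu
    exact h2.reachable
  · exact h1 u

theorem step [Fintype W] [Fintype U] (F : SimpleGraph W) (H : SimpleGraph U) (π : W → U)
    (hπ : ∀ a b, F.Adj a b → H.Adj (π a) (π b)) (d : ℕ) (hH : Surrounded H d)
    (S : Set U) (v : U) (hv : v ∉ S) (K : ℕ) (hK : 1 ≤ K)
    (hdeg : ∀ a, π a = v → ({b | F.Adj a b ∧ π b ∉ S}).ncard + d ≤ K) :
    c ((big F H π).induce (rem π S)) ≤ K * c ((big F H π).induce (rem π (insert v S))) := by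
  obtain ⟨Q, hQ, hvQ, hQ2, hQd, hQc⟩ := hH.2 v
  have hQne : Q.Nonempty := by
    rw [Set.nonempty_iff_ne_empty]
    rintro rfl
    rw [Set.ncard_empty] at hQ2
    omega
  have hQnt : Q.Nontrivial := Set.one_lt_ncard_iff_nontrivial.1 (by omega)
  set X : Set (W ⊕ U) := {z | ∃ a, z = Sum.inl a ∧ π a = v} with hX
  have hGX : {z | z ∈ rem π S ∧ z ∉ X} = rem π (insert v S) := by
    ext z
    rcases z with a | u
    · simp only [Set.mem_ofPred_eq, inl_mem_rem, Set.mem_insert_iff, hX, Sum.inl.injEq, not_exists,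
        not_and, not_or]
      constructor
      · rintro ⟨h1, h2⟩
        exact ⟨h2 a rfl, h1⟩
      · rintro ⟨h1, h2⟩
        exact ⟨h2, fun b hb => by rw [← hb]; exact h1⟩
    · refine ⟨fun _ => inr_mem_rem, fun _ => ⟨inr_mem_rem, ?_⟩⟩
      rintro ⟨a, ha, -⟩
      exact absurd ha (by simp)
  rw [← hGX]
  -- the connected sets around the vertices
  set R : W ⊕ U → Set (W ⊕ U) := fun x =>
    {y | (∃ b, y = Sum.inl b ∧ π b ∉ S ∧ (big F H π).Adj x (Sum.inl b)) ∨
      ∃ u ∈ Q, y = Sum.inr u} with hR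
  have hXnb : ∀ a b, π a = v → F.Adj a b → H.Adj v (π b) := by
    intro a b ha hab
    have h1 := hπ a b hab
    rwa [ha] at h1
  refine collapse (big F H π) (rem π S) X (Sum.inr v) K hK ?_ ?_ ?_ ?_ R ?_ ?_ ?_ ?_ ?_ ?_ ?_ ?_
  · exact inr_mem_rem
  · rintro ⟨a, ha, -⟩
    exact absurd ha (by simp)
  · rintro _ _ ⟨a, rfl, ha⟩ ⟨b, rfl, hb⟩ hab
    have h1 := hXnb a b ha hab
    rw [hb] at h1
    exact H.loopless.irrefl _ h1
  · rintro _ ⟨a, rfl, ha⟩ y _ hay
    rcases y with b | u
    · exact hXnb a b ha hay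
    · have h1 : H.Adj (π a) u := hay
      rw [ha] at h1
      exact h1
  · rintro _ ⟨a, rfl, ha⟩ y hy hay
    rcases y with b | u
    · left
      exact ⟨b, rfl, inl_mem_rem.1 hy, hay⟩
    · right
      refine ⟨u, ?_, rfl⟩
      have h1 : H.Adj (π a) u := hay
      rw [ha] at h1
      exact hQ h1
  · rintro _ ⟨a, rfl, ha⟩ y (⟨b, rfl, hb, -⟩ | ⟨u, -, rfl⟩)
    · exact inl_mem_rem.2 hb
    · exact inr_mem_rem
  · rintro _ ⟨a, rfl, ha⟩ y (⟨b, rfl, hb, hab⟩ | ⟨u, -, rfl⟩) hyX
    · obtain ⟨b', hb', hb''⟩ := hyX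
      rw [← Sum.inl.inj hb'] at hb''
      have h1 := hXnb a b ha hab
      rw [hb''] at h1
      exact H.loopless.irrefl _ h1
    · obtain ⟨b', hb', -⟩ := hyX
      exact absurd hb' (by simp)
  · rintro _ ⟨a, rfl, ha⟩ (⟨b, hb, -⟩ | ⟨u, hu, hu'⟩)
    · exact absurd hb (by simp)
    · rw [← Sum.inr.inj hu'] at hu
      exact hvQ hu
  · rintro _ ⟨a, rfl, ha⟩
    refine le_trans ?_ (hdeg a ha)
    have hsub : R (Sum.inl a) ⊆ (Sum.inl '' {b | F.Adj a b ∧ π b ∉ S}) ∪ (Sum.inr '' Q) := by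
      rintro y (⟨b, rfl, hb, hab⟩ | ⟨u, hu, rfl⟩)
      · left
        exact ⟨b, ⟨hab, hb⟩, rfl⟩
      · right
        exact ⟨u, hu, rfl⟩
    refine (Set.ncard_le_ncard hsub (Set.toFinite _)).trans ((Set.ncard_union_le _ _).trans ?_)
    rw [Set.ncard_image_of_injective _ Sum.inl_injective,
      Set.ncard_image_of_injective _ Sum.inr_injective]
    omega
  · rintro _ ⟨a, rfl, ha⟩
    rw [SimpleGraph.connected_iff_exists_forall_reachable]
    have hinr : ∀ u : Q, (Sum.inr (u : U) : W ⊕ U) ∈ R (Sum.inl a) := fun u =>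
      Or.inr ⟨u, u.2, rfl⟩
    let f : H.induce Q →g (big F H π).induce (R (Sum.inl a)) :=
      ⟨fun u => ⟨Sum.inr u, hinr u⟩, fun {a b} hab => hab⟩
    obtain ⟨u0, hu0⟩ := hQne
    refine ⟨⟨Sum.inr u0, hinr ⟨u0, hu0⟩⟩, ?_⟩
    have h1 : ∀ u : Q, ((big F H π).induce (R (Sum.inl a))).Reachable
        ⟨Sum.inr u0, hinr ⟨u0, hu0⟩⟩ ⟨Sum.inr u, hinr u⟩ :=
      fun u => (hQc.preconnected ⟨u0, hu0⟩ u).map f
    rintro ⟨y, hy⟩
    rcases hy with ⟨b, rfl, hb, hab⟩ | ⟨u, hu, rfl⟩
    · -- `π b` is a neighbour of `v` and has a neighbour in `Q`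
      have hvb : H.Adj v (π b) := hXnb a b ha hab
      obtain ⟨u', hu', hne⟩ := hQnt.exists_ne (π b)
      obtain ⟨u'', hu''⟩ := exists_nb (H.induce Q) hQc.preconnected
        (a := ⟨π b, hQ hvb⟩) (b := ⟨u', hu'⟩)
        (fun h => hne (congrArg (fun z : Q => (z : U)) h).symm)
      refine (h1 u'').trans ?_
      have h3 : H.Adj (π b) (u'' : U) := hu''
      have h2 : ((big F H π).induce (R (Sum.inl a))).Adj
          ⟨Sum.inr u'', hinr u''⟩ ⟨Sum.inl b, Or.inl ⟨b, rfl, hb, hab⟩⟩ := h3.symm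
      exact h2.reachable
    · exact h1 ⟨u, hu⟩
  · rw [hGX]
    exact rem_connected F H π hH.1 hH.nb _
  · obtain ⟨u, hu⟩ := hQne
    refine ⟨Sum.inr u, inr_mem_rem, ?_, ?_⟩
    · rintro ⟨a, ha, -⟩
      exact absurd ha (by simp)
    · intro h
      have h1 : u = v := Sum.inr.inj h
      rw [h1] at hu
      exact hvQ hu

/-- collapsing all classes but `u₀` -/
theorem steps [Fintype W] [Fintype U] (F : SimpleGraph W) (H : SimpleGraph U) (π : W → U)
    (hπ : ∀ a b, F.Adj a b → H.Adj (π a) (π b)) (u₀ : U) (k d : ℕ) (hH : Surrounded H d)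
    (hkd : 1 ≤ k + d) (hF : ∀ w, π w ≠ u₀ → (F.neighborSet w).ncard ≤ k)
    (S : Finset U) (hS : u₀ ∉ S) :
    c ((big F H π).induce (rem π ∅)) ≤
      ((k + d) ^ S.card : ℕ) * c ((big F H π).induce (rem π (S : Set U))) := by
  induction S using Finset.induction_on with
  | empty =>
    rw [Finset.card_empty, pow_zero, Finset.coe_empty, Nat.cast_one, one_mul]
  | @insert v S hv ih =>
    rw [Finset.mem_insert, not_or] at hS
    refine (ih hS.2).trans ?_
    have h1 := step F H π hπ d hH (S : Set U) v (by exact_mod_cast hv) (k + d) hkd (by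
      intro a ha
      refine Nat.add_le_add_right ?_ d
      refine (Set.ncard_le_ncard ?_ (Set.toFinite _)).trans (hF a (by rw [ha]; exact Ne.symm hS.1))
      rintro b ⟨hb, -⟩
      exact hb)
    rw [Finset.card_insert_of_notMem hv, Finset.coe_insert, pow_succ]
    calc (((k + d) ^ S.card : ℕ) : ℝ≥0∞) * c ((big F H π).induce (rem π (S : Set U)))
        ≤ (((k + d) ^ S.card : ℕ) : ℝ≥0∞) * (((k + d : ℕ) : ℝ≥0∞) *
            c ((big F H π).induce (rem π (insert v (S : Set U))))) := by gcongr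
      _ = _ := by push_cast; ring

/-- the reduction -/
theorem reduction [Fintype W] [Fintype U] (F : SimpleGraph W) (H : SimpleGraph U) (π : W → U)
    (hπ : ∀ a b, F.Adj a b → H.Adj (π a) (π b)) (u₀ : U) (k d : ℕ) (hH : Surrounded H d)
    (hF : ∀ w, π w ≠ u₀ → (F.neighborSet w).ncard ≤ k) :
    c F ≤ ((k + d) ^ (Fintype.card U - 1) * d : ℕ) * c H := by
  have hd1 : 1 ≤ d := by
    obtain ⟨R, -, -, h2, h3, -⟩ := hH.2 u₀
    omega
  have h1 : c F ≤ c ((big F H π).induce (rem π ∅)) := by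
    refine c_mono ⟨⟨⟨fun w => ⟨Sum.inl w, inl_mem_rem.2 (by simp)⟩, fun {a b} hab => hab⟩, ?_⟩⟩
    intro a b hab
    exact Sum.inl_injective (congrArg (fun z : rem π ∅ => (z : W ⊕ U)) hab)
  have h2 := steps F H π hπ u₀ k d hH (by omega) hF (Finset.univ.erase u₀) (by simp)
  rw [Finset.card_erase_of_mem (Finset.mem_univ _), Finset.card_univ] at h2
  have h3 := step F H π hπ d hH ((Finset.univ.erase u₀ : Finset U) : Set U) u₀ (by simp) d
    hd1 (by
      intro a ha
      have h0 : {b | F.Adj a b ∧ π b ∉ ((Finset.univ.erase u₀ : Finset U) : Set U)} = ∅ := by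
        ext b
        simp only [Set.mem_ofPred_eq, Finset.coe_erase, Finset.coe_univ, Set.mem_sdiff,
          Set.mem_univ, true_and, Set.mem_singleton_iff, not_not, Set.mem_empty_iff_false,
          iff_false, not_and]
        intro hab hb
        have h4 := hπ a b hab
        rw [ha, hb] at h4
        exact H.loopless.irrefl _ h4
      rw [h0, Set.ncard_empty, zero_add])
  have h4 : c ((big F H π).induce (rem π (insert u₀ ((Finset.univ.erase u₀ : Finset U) : Set U))))
      ≤ c H := by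
    have hall : ∀ z ∈ rem π (insert u₀ ((Finset.univ.erase u₀ : Finset U) : Set U)),
        ∃ u, z = Sum.inr u := by
      rintro (a | u) hz
      · exfalso
        rw [inl_mem_rem] at hz
        apply hz
        by_cases h : π a = u₀
        · left; exact h
        · right
          simp [h]
      · exact ⟨u, rfl⟩
    refine c_mono ⟨⟨⟨fun z => Sum.elim π id (z : W ⊕ U), ?_⟩, ?_⟩⟩
    · intro z z' hzz
      obtain ⟨u, hu⟩ := hall _ z.2
      obtain ⟨u', hu'⟩ := hall _ z'.2
      have h5 : (big F H π).Adj (z : W ⊕ U) (z' : W ⊕ U) := hzz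
      rw [hu, hu'] at h5 ⊢
      exact h5
    · intro z z' hzz
      obtain ⟨u, hu⟩ := hall _ z.2
      obtain ⟨u', hu'⟩ := hall _ z'.2
      have h5 : Sum.elim π id (z : W ⊕ U) = Sum.elim π id (z' : W ⊕ U) := hzz
      rw [hu, hu'] at h5
      apply Subtype.ext
      rw [hu, hu']
      exact congrArg Sum.inr h5
  calc c F ≤ (((k + d) ^ (Fintype.card U - 1) : ℕ) : ℝ≥0∞) *
        c ((big F H π).induce (rem π ((Finset.univ.erase u₀ : Finset U) : Set U))) := h1.trans h2
    _ ≤ (((k + d) ^ (Fintype.card U - 1) : ℕ) : ℝ≥0∞) * (((d : ℕ) : ℝ≥0∞) * c H) := by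
        gcongr
        exact h3.trans (by gcongr)
    _ = _ := by push_cast; ring

end Pool.Agent.X67.CR
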