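import Mathlib
import Pool.Agent.X67.CR.Host
import Pool.Agent.TH855.Treewidth

set_option autoImplicit false

/-!
# Reduction of `c(F)` to `c(H)` for graphs `F` of bounded treewidth homomorphic to `H`
-/

namespace Pool.Agent.X67.CR

open Pool.Agent.TH855 Pool.Agent.Y388.CF Classical
open scoped ENNReal

/-- Tree-like gluing without the connectivity of the rims: a connected dominating set outside the
image of the homomorphism can be added to all pieces. -/
theorem treeGlued_addSet {W U A : Type} [Fintype W] [Fintype A] (F : SimpleGraph W)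
    (H : SimpleGraph U) (k : ℕ) (ρ : A → U) (hρ : Function.Injective ρ)
    (hcon : (H.induce (Set.range ρ)).Connected) (hdom : ∀ u, ∃ a, H.Adj (ρ a) u)
    (π : W → U) (hπρ : ∀ w a, π w ≠ ρ a) (m : ℕ) (B : ℕ → Set W)
    (hm : 0 < m)
    (hπ : ∀ a b, F.Adj a b → H.Adj (π a) (π b)) (hcov : ∀ w, ∃ i < m, w ∈ B i)
    (hedge : ∀ a b, F.Adj a b → ∃ i < m, a ∈ B i ∧ b ∈ B i)
    (hinj : ∀ i < m, Set.InjOn π (B i))
    (hglue : ∀ i < m, 0 < i → ∃ j < i, (∀ l < i, B i ∩ B l ⊆ B j) ∧
      (B i ⊆ B j ∨ (B i ∩ B j).ncard ≤ k)) :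
    TreeGlued (F ⊕g (⊥ : SimpleGraph A)) H (k + Fintype.card A) := by
  set π' : W ⊕ A → U := Sum.elim π ρ with hπ'
  set B' : ℕ → Set (W ⊕ A) := fun i => {z | ∀ w, z = Sum.inl w → w ∈ B i} with hB'
  have hl : ∀ i w, (Sum.inl w : W ⊕ A) ∈ B' i ↔ w ∈ B i := by
    intro i w
    constructor
    · intro h; exact h w rfl
    · intro h w' hw'
      rw [← Sum.inl.inj hw']; exact h
  have hr : ∀ i b, (Sum.inr b : W ⊕ A) ∈ B' i := by
    intro i b w hw
    exact absurd hw (by simp)
  have hsub : ∀ i l j, B i ∩ B l ⊆ B j → B' i ∩ B' l ⊆ B' j := by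
    rintro i l j h (w | b) ⟨h1, h2⟩
    · rw [hl] at h1 h2 ⊢
      exact h ⟨h1, h2⟩
    · exact hr j b
  refine ⟨π', m, B', ?_, ?_, ?_, ?_, ?_⟩
  · rintro (a | a) (b | b) hab
    · exact hπ a b (by simpa using hab)
    · exact absurd hab (by simp)
    · exact absurd hab (by simp)
    · exact absurd hab (by simp)
  · rintro (w | b)
    · obtain ⟨i, hi, hw⟩ := hcov w
      exact ⟨i, hi, (hl i w).2 hw⟩
    · exact ⟨0, hm, hr 0 b⟩
  · rintro (a | a) (b | b) hab
    · obtain ⟨i, hi, h1, h2⟩ := hedge a b (by simpa using hab)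
      exact ⟨i, hi, (hl i a).2 h1, (hl i b).2 h2⟩
    · exact absurd hab (by simp)
    · exact absurd hab (by simp)
    · exact absurd hab (by simp)
  · rintro i hi (a | a) ha (b | b) hb hab
    · exact congrArg Sum.inl (hinj i hi ((hl i a).1 ha) ((hl i b).1 hb) hab)
    · exact absurd hab (hπρ a b)
    · exact absurd hab.symm (hπρ b a)
    · exact congrArg Sum.inr (hρ hab)
  · intro i hi
    by_cases hi0 : i = 0
    · left; intro l hl; omega
    · right
      obtain ⟨j, hj, hsub', hg⟩ := hglue i hi (Nat.pos_of_ne_zero hi0)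
      refine ⟨j, hj, fun l hl => hsub i l j (hsub' l hl), ?_⟩
      rcases hg with hg | hg
      · left
        rintro (w | b) hw
        · rw [hl] at hw ⊢; exact hg hw
        · exact hr j b
      · right
        refine ⟨?_, ?_⟩
        · have h1 : B' i ∩ B' j ⊆ (Sum.inl '' (B i ∩ B j)) ∪ (Set.range Sum.inr) := by
            rintro (w | b) ⟨h1, h2⟩
            · left
              exact ⟨w, ⟨(hl i w).1 h1, (hl j w).1 h2⟩, rfl⟩
            · right; exact ⟨b, rfl⟩
          have h2 := Set.ncard_le_ncard h1 (Set.toFinite _)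
          have h3 := Set.ncard_union_le (Sum.inl '' (B i ∩ B j) : Set (W ⊕ A))
            (Set.range Sum.inr)
          have h4 : ((Sum.inl '' (B i ∩ B j) : Set (W ⊕ A))).ncard ≤ k :=
            (Set.ncard_image_le).trans hg
          have h5 : ((Set.range Sum.inr : Set (W ⊕ A))).ncard ≤ Fintype.card A := by
            rw [← Set.image_univ, Set.ncard_image_of_injective _ Sum.inr_injective,
              Set.ncard_univ, Nat.card_eq_fintype_card]
          omega
        · have hmem : ∀ a, ρ a ∈ π' '' (B' i ∩ B' j) := fun a =>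
            ⟨Sum.inr a, ⟨hr i a, hr j a⟩, rfl⟩
          rw [SimpleGraph.connected_iff_exists_forall_reachable]
          obtain ⟨⟨_, a0, rfl⟩⟩ := hcon.nonempty
          refine ⟨⟨ρ a0, hmem a0⟩, ?_⟩
          let f : H.induce (Set.range ρ) →g H.induce (π' '' (B' i ∩ B' j)) :=
            ⟨fun z => ⟨z, by obtain ⟨a, ha⟩ := z.2; rw [← ha]; exact hmem a⟩,
              fun {a b} hab => hab⟩
          rintro ⟨z, hz⟩
          obtain ⟨a, ha⟩ := hdom z
          have h1 : (H.induce (π' '' (B' i ∩ B' j))).Reachable ⟨ρ a0, hmem a0⟩ ⟨ρ a, hmem a⟩ :=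
            (hcon.preconnected ⟨ρ a0, a0, rfl⟩ ⟨ρ a, a, rfl⟩).map f
          have h2 : (H.induce (π' '' (B' i ∩ B' j))).Adj ⟨ρ a, hmem a⟩ ⟨z, hz⟩ := ha
          exact h1.trans h2.reachable

/-- the blow-up of `H` in which every vertex is replaced by `n` vertices -/
def bl {U : Type} (H : SimpleGraph U) (n : ℕ) : SimpleGraph (U × Fin n) where
  Adj x y := H.Adj x.1 y.1
  symm := ⟨fun _ _ h => SimpleGraph.Adj.symm (G := H) h⟩
  loopless := ⟨fun _ h => H.loopless.irrefl _ h⟩

theorem c_bl {U : Type} [Fintype U] (H : SimpleGraph U) (d n : ℕ) (hH : Surrounded H d) :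
    c (bl H n) ≤ ((d * (n + 1)) ^ (Fintype.card U - 1) * d : ℕ) * c H := by
  obtain ⟨u₀⟩ := hH.1.nonempty
  have h := reduction (bl H n) H Prod.fst (fun a b hab => hab) u₀ (d * n) d hH
    (by
      rintro ⟨u, l⟩ -
      have hsub : (bl H n).neighborSet (u, l) ⊆ (H.neighborSet u) ×ˢ (Set.univ : Set (Fin n)) := by
        rintro ⟨v, l'⟩ hv
        exact ⟨hv, Set.mem_univ _⟩
      refine (Set.ncard_le_ncard hsub (Set.toFinite _)).trans ?_
      rw [Set.ncard_prod, Set.ncard_univ, Nat.card_eq_fintype_card, Fintype.card_fin]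
      exact Nat.mul_le_mul_right _ (hH.degree u))
  have h2 : d * n + d = d * (n + 1) := by ring
  rwa [h2] at h

theorem tw_bound {W U : Type} [Fintype W] [Fintype U] (F : SimpleGraph W) (H : SimpleGraph U)
    (f : F →g H) (w d : ℕ) (hS : Surrounded H d) (hF : TreewidthLe F w) :
    c F ≤ ((w + Fintype.card U) * ((d * (w + 3)) ^ (Fintype.card U - 1) * d) : ℕ) * c H := by
  have hH : H.Connected := hS.1
  obtain ⟨I, _, T, B, hT, hcard, hedge, hconn⟩ := hF
  obtain ⟨e, he, hord⟩ := tree_order T hT B (fun w => (hconn w).preconnected)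
  obtain ⟨lab, hlab⟩ := tree_colour w (Fintype.card I) (fun n => B (e n)) (fun n => hcard _) hord
  have hcov : ∀ x, ∃ i < Fintype.card I, x ∈ B (e i) := by
    intro x
    obtain ⟨i, hi⟩ := (hconn x).nonempty
    obtain ⟨n, hn, hni⟩ := he i
    exact ⟨n, hn, by rw [hni]; exact hi⟩
  have hedge' : ∀ a b, F.Adj a b → ∃ i < Fintype.card I, a ∈ B (e i) ∧ b ∈ B (e i) := by
    intro a b hab
    obtain ⟨i, hi⟩ := hedge a b hab
    obtain ⟨n, hn, hni⟩ := he i
    exact ⟨n, hn, by rw [hni]; exact hi⟩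
  have hI : 0 < Fintype.card I := by
    have := hT.connected.nonempty
    exact Fintype.card_pos
  set ρ : U → U × Fin (w + 2) := fun u => (u, Fin.last _) with hρ
  set π : W → U × Fin (w + 2) := fun x => (f x, Fin.castSucc (lab x)) with hπ
  have hgl := treeGlued_addSet F (bl H (w + 2)) w ρ
    (fun a b hab => (Prod.mk.inj hab).1)
    (by
      rw [SimpleGraph.connected_iff_exists_forall_reachable]
      obtain ⟨u0⟩ := hH.nonempty
      refine ⟨⟨ρ u0, u0, rfl⟩, ?_⟩
      let g : H →g (bl H (w + 2)).induce (Set.range ρ) :=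
        ⟨fun u => ⟨ρ u, u, rfl⟩, fun {a b} hab => hab⟩
      rintro ⟨_, u, rfl⟩
      exact (hH.preconnected u0 u).map g)
    (by
      rintro ⟨u, l⟩
      obtain ⟨v, hv⟩ := hS.nb u
      exact ⟨v, SimpleGraph.Adj.symm (G := H) hv⟩)
    π
    (by
      intro x a h
      have h1 := (Prod.mk.inj h).2
      exact absurd h1 (Fin.castSucc_lt_last _).ne)
    (Fintype.card I) (fun n => B (e n)) hI
    (fun a b hab => f.map_rel hab) hcov hedge'
    (by
      intro i hi a ha b hb hab
      have h1 := (Prod.mk.inj hab).2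
      exact hlab i hi ha hb (Fin.castSucc_injective _ h1))
    (by
      intro i hi hi0
      obtain ⟨j, hj, h1⟩ := hord i hi hi0
      refine ⟨j, hj, h1, ?_⟩
      by_cases h2 : (B (e i) ∩ B (e j)).ncard ≤ w
      · exact Or.inr h2
      · left
        have h3 : B (e i) ∩ B (e j) = B (e i) :=
          Set.eq_of_subset_of_ncard_le Set.inter_subset_left
            ((hcard (e i)).trans (by omega)) (Set.toFinite _)
        show B (e i) ⊆ B (e j)
        rw [← h3]
        exact Set.inter_subset_right)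
  have hUpos : 0 < Fintype.card U := by
    have := hH.nonempty
    exact Fintype.card_pos
  have hconn2 : (bl H (w + 2)).Connected := by
    rw [SimpleGraph.connected_iff_exists_forall_reachable]
    obtain ⟨u0⟩ := hH.nonempty
    refine ⟨(u0, Fin.last _), ?_⟩
    rintro ⟨u, l⟩
    obtain ⟨v, hv⟩ := hS.nb u
    let g : H →g bl H (w + 2) := ⟨fun u => (u, Fin.last _), fun {a b} hab => hab⟩
    have h1 : (bl H (w + 2)).Reachable (u0, Fin.last _) (v, Fin.last _) :=
      (hH.preconnected u0 v).map g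
    have h2 : (bl H (w + 2)).Adj (v, Fin.last _) (u, l) := SimpleGraph.Adj.symm (G := H) hv
    exact h1.trans h2.reachable
  have hone : 1 < Fintype.card (U × Fin (w + 2)) := by
    rw [Fintype.card_prod, Fintype.card_fin]
    nlinarith
  have h1 : c F ≤ (w + Fintype.card U : ℕ) * c (bl H (w + 2)) :=
    (c_mono ⟨⟨(SimpleGraph.Embedding.sumInl : F ↪g F ⊕g (⊥ : SimpleGraph U)).toHom,
      Sum.inl_injective⟩⟩).trans (treeGlued_bound _ _ _ hconn2 hone (by omega) hgl)
  refine h1.trans ?_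
  have h2 := c_bl H d (w + 2) hS
  have h3 : w + 2 + 1 = w + 3 := rfl
  rw [h3] at h2
  calc ((w + Fintype.card U : ℕ) : ℝ≥0∞) * c (bl H (w + 2))
      ≤ ((w + Fintype.card U : ℕ) : ℝ≥0∞) *
        (((d * (w + 3)) ^ (Fintype.card U - 1) * d : ℕ) * c H) := by gcongr
    _ = _ := by push_cast; ring

end Pool.Agent.X67.CR
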